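import Pool.Agent.N609.WH.Conn
import Pool.Agent.N609.WH.Deg
import Pool.Agent.N609.WH.Lab
import Pool.Agent.N609.WH.Tor

/-!
# The toric ideal of a matroid of rank `r` is generated in degree at most `r ^ 3 + 2`

The weak conjecture of White says that the toric ideal of a matroid is generated in degree two. It was
known that it is generated in degree at most `(r + 3)!`, where `r` is the rank (Lasoń 2021). We
prove that it is generated in degree at most `r ^ 3 + 2`.

Proof. It is enough to connect two partitions of a set `E` with `k r` elements into `k ≥ r ^ 3 + 2`
bases (of the matroid obtained by adding parallel elements) by a chain of partitions such that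
consecutive ones have a basis in common (`S_PART`). Call a basis `G` perfect if for all sets `F` with
`|F| = (k - 1) rk F` the closure of `F` is spanned by elements of `G`.

1. Every partition contains a perfect basis (`perfect_exists`): otherwise for each `l` there is `F l`
with `|F l| = (k - 1) rk (F l)` which is not spanned in this sense by the `l`-th basis `T l`. But at most
`r` of the bases of the partition do not contain a basis of `F l`. So some `T o` contains a basis
`S l` of `F l` for all `l` but `r`. The subsets of `T o` with the same closure as a subset of `T l` are a
lattice not containing `S l`, so there are `a`, `b` in `T o` with `a ∈ S l`, `b ∉ S l` which are not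
separated by any set of this lattice. Each pair `(a, b)` belongs to at most `r` indices `l`, so
that `k ≤ r + r ^ 2 (r - 1) ≤ r ^ 3`.

2. Let `G` be perfect. Each complementary basis `B ≠ G` can be changed into a complementary basis by an
exchange of one element for any given element of `G \ B` (`exch`).

3. If `D` and `D'` are complementary bases which differ in one element then there are partitions
containing `D` and `D'` with another basis in common, since `k - 1 ≥ r + 1` (`common`; this is the
theorem `MP_972f2a_ag.CommonBasis`).
-/

set_option autoImplicit false

namespace Pool.Agent.Results.MP_e6151a_ag.CubicDegree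

universe u

/-- The toric ideal of `M` over the field `K`: the kernel of the homomorphism from the polynomial ring
with one variable `y_B` for each basis `B` of `M` to `K[x_e]` with `y_B ↦ ∏ e ∈ B, x_e`. -/
noncomputable def toricIdeal {α : Type} (M : Matroid α) (K : Type u) [Field K] :
    Ideal (MvPolynomial {B : Finset α // M.IsBase (B : Set α)} K) :=
  RingHom.ker (MvPolynomial.aeval (R := K) (S₁ := MvPolynomial α K)
    fun B : {B : Finset α // M.IsBase (B : Set α)} => ∏ e ∈ B.1, MvPolynomial.X e)

/-- **The toric ideal of a matroid of rank `r ≥ 1` is generated by homogeneous elements of degree at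
most `r ^ 3 + 2`.** -/
theorem result {α : Type} (M : Matroid α) (r : ℕ) (hr : M.eRank = r) (hpos : 0 < r)
    (K : Type u) [Field K] :
    toricIdeal M K = Ideal.span {f | f ∈ toricIdeal M K ∧ ∃ d ≤ r ^ 3 + 2, f.IsHomogeneous d} := by
  classical
  refine Pool.Agent.N609.WH.Tor.t_TOR α (fun F => M.IsBase (F : Set α)) r (r ^ 3 + 2) hpos ?_ ?_ K
  · intro B hB
    have h1 := Matroid.IsBase.encard_eq_eRank hB
    rw [hr, Set.encard_coe_eq_coe_finsetCard] at h1
    exact_mod_cast h1
  · intro n B C hB hC hBC
    refine Pool.Agent.N609.WH.Deg.t_DEG α (fun F => M.IsBase (F : Set α)) (r ^ 3 + 2) (by omega) ?_ n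
      B C hB hC hBC
    intro k hk B C hB hC hBC
    exact Pool.Agent.N609.WH.Lab.t_LAB r k (Pool.Agent.N609.WH.t_PART (by omega)) α M hr B C hB hC
      hBC

end Pool.Agent.Results.MP_e6151a_ag.CubicDegree
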